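import Pool.Agent.H11.Sub1

open H11.Sub

theorem Pool.Agent.Results.MP_bd62ae_co.Counter.result :
    ∃ (S : Finset ℕ) (G : ℕ → ℕ), (∀ s ∈ S, 0 < s) ∧ IsNimSeq S G ∧ UltBipartite G ∧
      Sex G ≠ (S : Set ℕ) ∧ Sex G ≠ Sstar S 2 := by
  refine ⟨{3, 11, 15}, G0, by decide, nim, ult, fun h => ?_, fun h => ?_⟩
  · have := nine
    rw [h] at this
    simp at this
  · apply five
    rw [h]
    exact ⟨3, by simp, 1, by norm_num⟩
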